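import Pool.Agent.H30.Cyc

set_option autoImplicit false
open Pool.Agent.H30.CycDefs

namespace Pool.Agent.Results.MP_f664e7_co.Counter

theorem result : ∃ cst : Cycle ℕ → ℕ,
    (∀ π σ : List ℕ, IsWord π → IsWord σ → std π = std σ → cst π = cst σ) ∧
    (∀ π σ π' σ' : List ℕ, IsWord π → IsWord σ → IsWord π' → IsWord σ' →
      π.Disjoint σ → π'.Disjoint σ' → cst π = cst π' → cst σ = cst σ' →
      π.length = π'.length → σ.length = σ'.length →
      ∀ v, {c ∈ Sh π σ | cst c = v}.ncard = {c ∈ Sh π' σ' | cst c = v}.ncard) ∧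
    (∀ π σ : List ℕ, IsWord π → IsWord σ → π.Disjoint σ → (Sh π σ).Finite) ∧
    ∃ π σ : List ℕ, IsWord π ∧ IsWord σ ∧ π.length = σ.length ∧ cDesCyc π = cDesCyc σ ∧
      cst π ≠ cst σ := by
  refine ⟨Pool.Agent.H30.Cyc.cst, ?_, ?_, ?_, [1, 2, 3, 5, 4], [1, 2, 4, 5, 3], ?_, ?_, rfl, ?_, ?_⟩
  · intro π σ _ _ h
    rw [Pool.Agent.H30.Cyc.cst_coe, Pool.Agent.H30.Cyc.cst_coe]
    unfold Pool.Agent.H30.Cyc.cstL
    rw [h]
  · intro π σ π' σ' w1 w2 w3 w4 d1 d2 c1 c2 l1 l2 v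
    have n1 := w1.1.append w2.1 d1
    have n2 := w3.1.append w4.1 d2
    rw [Pool.Agent.H30.Cyc.Sh_eq n1 (fun x hx => (List.mem_append.1 hx).elim (w1.2 x) (w2.2 x)),
      Pool.Agent.H30.Cyc.Sh_eq n2 (fun x hx => (List.mem_append.1 hx).elim (w3.2 x) (w4.2 x))]
    exact Pool.Agent.H30.Cyc.compat π σ π' σ' n1 n2 l1 l2 c1 c2 v
  · intro π σ w1 w2 d
    have n1 := w1.1.append w2.1 d
    refine ((List.finite_toSet (π ++ σ).permutations).image
      (fun τ : List ℕ => (τ : Cycle ℕ))).subset ?_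
    rintro c ⟨τ, rfl, -, l, h1, h2⟩
    exact ⟨τ, List.mem_permutations.2 (Pool.Agent.H30.Cyc.perm_of n1 l h1 h2).symm, rfl⟩
  · exact ⟨by decide, by decide⟩
  · exact ⟨by decide, by decide⟩
  · decide
  · rw [Pool.Agent.H30.Cyc.cst_coe, Pool.Agent.H30.Cyc.cst_coe]
    decide

end Pool.Agent.Results.MP_f664e7_co.Counter
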